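import Mathlib

open Finset PowerSeries

namespace Pool.Agent.Results.MP_d17fc5_co.HookTwoBias

/-- The `i`-th largest part (`i ≥ 1`) of a partition, and `0` if there are fewer than `i` parts. -/
def row {n : ℕ} (p : n.Partition) (i : ℕ) : ℕ := (p.parts.sort (· ≥ ·)).getD (i - 1) 0

/-- The `j`-th part of the conjugate partition: the number of parts that are at least `j`. -/
def col {n : ℕ} (p : n.Partition) (j : ℕ) : ℕ := (p.parts.filter (fun x => j ≤ x)).card

/-- The cells `(i, j)` of the Young diagram: `1 ≤ i`, `1 ≤ j ≤ row i`. -/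
def cells {n : ℕ} (p : n.Partition) : Finset (ℕ × ℕ) :=
  ((Icc 1 n) ×ˢ (Icc 1 n)).filter (fun c => c.2 ≤ row p c.1)

/-- The hook length `row i + col j - i - j + 1` of the cell `(i, j)`, as an integer. -/
def hook {n : ℕ} (p : n.Partition) (c : ℕ × ℕ) : ℤ :=
  (row p c.1 : ℤ) + (col p c.2 : ℤ) - (c.1 : ℤ) - (c.2 : ℤ) + 1

/-- The number of cells of hook length `2`. -/
def h2 {n : ℕ} (p : n.Partition) : ℕ := ((cells p).filter (fun c => hook p c = 2)).card

/-- Partitions of `n` into odd parts with largest part at most `2 * L - 1`. -/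
def oddP (L n : ℕ) : Finset n.Partition :=
  univ.filter (fun p => ∀ x ∈ p.parts, Odd x ∧ x ≤ 2 * L - 1)

/-- Partitions of `n` into distinct parts with largest part at most `L`. -/
def distP (L n : ℕ) : Finset n.Partition :=
  univ.filter (fun p => p.parts.Nodup ∧ ∀ x ∈ p.parts, x ≤ L)

/-- The number of partitions of `n` into odd parts, largest part at most `2 * L - 1`, with exactly
`m` cells of hook length `2`. -/
def a2 (L m n : ℕ) : ℕ := ((oddP L n).filter (fun p => h2 p = m)).card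

/-- The number of partitions of `n` into distinct parts, largest part at most `L`, with exactly
`m` cells of hook length `2`. -/
def b2 (L m n : ℕ) : ℕ := ((distP L n).filter (fun p => h2 p = m)).card

/-- `A_L(n) = ∑_{m ≥ 0} (m choose 2) * a2 L m n` -/
noncomputable def A (L n : ℕ) : ℕ := ∑ᶠ m : ℕ, m.choose 2 * a2 L m n

/-- `B_L(n) = ∑_{m ≥ 0} (m choose 2) * b2 L m n` -/
noncomputable def B (L n : ℕ) : ℕ := ∑ᶠ m : ℕ, m.choose 2 * b2 L m n

theorem list_getD_iff (l : List ℕ) (hl : l.Pairwise (· ≥ ·)) (i j : ℕ) (hj : 1 ≤ j) :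
    j ≤ l.getD i 0 ↔ i < (l.filter (fun x => j ≤ x)).length := by
  induction l generalizing i with
  | nil => simp; omega
  | cons a t ih =>
    rw [List.pairwise_cons] at hl
    obtain ⟨h1, h2⟩ := hl
    by_cases ha : j ≤ a
    · rw [List.filter_cons_of_pos (by simpa using ha)]
      cases i with
      | zero => simpa using ha
      | succ i =>
        simp only [List.getD_cons_succ, List.length_cons]
        rw [ih h2 i]
        omega
    · have hf : (List.filter (fun x => decide (j ≤ x)) (a :: t)) = [] := by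
        rw [List.filter_eq_nil_iff]
        intro x hx
        rcases List.mem_cons.mp hx with rfl | hx
        · simpa using ha
        · have := h1 x hx
          simp; omega
      rw [hf]
      simp only [List.length_nil, Nat.not_lt_zero, iff_false, not_le]
      cases i with
      | zero => simpa using ha
      | succ i =>
        simp only [List.getD_cons_succ]
        by_cases hi : i < t.length
        · rw [List.getD_eq_getElem _ _ hi]
          have := h1 _ (List.getElem_mem hi)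
          omega
        · rw [List.getD_eq_default _ _ (by omega)]
          omega

theorem le_row_iff {n : ℕ} (p : n.Partition) {i j : ℕ} (hi : 1 ≤ i) (hj : 1 ≤ j) :
    j ≤ row p i ↔ i ≤ col p j := by
  unfold row col
  rw [list_getD_iff _ (Multiset.pairwise_sort _ _) _ _ hj]
  have : (p.parts.filter (fun x => j ≤ x)).card =
      ((p.parts.sort (· ≥ ·)).filter (fun x => decide (j ≤ x))).length := by
    conv_lhs => rw [← Multiset.sort_eq p.parts (· ≥ ·)]
    rw [Multiset.filter_coe, Multiset.coe_card]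
  rw [this]
  omega

theorem col_succ {n : ℕ} (p : n.Partition) (j : ℕ) :
    col p j = col p (j + 1) + p.parts.count j := by
  unfold col
  have h := Multiset.filter_add_filter (fun x => j + 1 ≤ x) (fun x => j = x) p.parts
  have h1 : Multiset.filter (fun a => j + 1 ≤ a ∨ j = a) p.parts =
      Multiset.filter (fun x => j ≤ x) p.parts := by
    apply Multiset.filter_congr; intro x _; omega
  have h2 : Multiset.filter (fun a => j + 1 ≤ a ∧ j = a) p.parts = 0 := by
    rw [Multiset.filter_eq_nil]; intro x _; omega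
  rw [h1, h2, add_zero] at h
  rw [← h, Multiset.card_add, Multiset.count, Multiset.countP_eq_card_filter]

theorem card_parts_le {n : ℕ} (p : n.Partition) : p.parts.card ≤ n := by
  have h : p.parts.card • 1 ≤ p.parts.sum :=
    Multiset.card_nsmul_le_sum (fun x hx => p.parts_pos hx)
  rw [p.parts_sum] at h
  simpa using h

theorem col_le {n : ℕ} (p : n.Partition) (j : ℕ) : col p j ≤ n :=
  (Multiset.card_le_card (Multiset.filter_le _ _)).trans (card_parts_le p)

theorem col_eq_zero {n : ℕ} (p : n.Partition) {j : ℕ} (hj : n < j) : col p j = 0 := by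
  unfold col
  rw [Multiset.card_eq_zero, Multiset.filter_eq_nil]
  intro x hx
  have := Nat.Partition.le_of_mem_parts hx
  omega

theorem mem_cells {n : ℕ} (p : n.Partition) (i j : ℕ) :
    (i, j) ∈ cells p ↔ 1 ≤ i ∧ 1 ≤ j ∧ j ≤ row p i := by
  unfold cells
  simp only [mem_filter, mem_product, mem_Icc]
  constructor
  · rintro ⟨⟨⟨h1, _⟩, h2, _⟩, h3⟩
    exact ⟨h1, h2, h3⟩
  · rintro ⟨h1, h2, h3⟩
    have h4 := (le_row_iff p h1 h2).mp h3
    refine ⟨⟨⟨h1, h4.trans (col_le p j)⟩, h2, ?_⟩, h3⟩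
    by_contra hc
    have := col_eq_zero p (j := j) (by omega)
    omega

/-- Part sizes `x ≥ 2` such that `x - 1` is not a part. -/
def S1 {n : ℕ} (p : n.Partition) : Finset ℕ :=
  p.parts.toFinset.filter (fun x => 2 ≤ x ∧ x - 1 ∉ p.parts)

/-- Repeated part sizes. -/
def S2 {n : ℕ} (p : n.Partition) : Finset ℕ :=
  p.parts.toFinset.filter (fun x => 2 ≤ p.parts.count x)

theorem h2_eq {n : ℕ} (p : n.Partition) : h2 p = (S1 p).card + (S2 p).card := by
  have key : (cells p).filter (fun c => hook p c = 2) =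
      (S1 p).image (fun x => (col p x, x - 1)) ∪ (S2 p).image (fun x => (col p x - 1, x)) := by
    ext ⟨i, j⟩
    rw [mem_filter, mem_cells, mem_union, mem_image, mem_image]
    simp only [Prod.mk.injEq]
    unfold hook
    dsimp only
    constructor
    · rintro ⟨⟨hi, hj, hr⟩, hh⟩
      have hc := (le_row_iff p hi hj).mp hr
      have hcs := col_succ p j
      have hcs1 := col_succ p (j + 1)
      have e1 := le_row_iff p (i := i) (j := j + 1) hi (by omega)
      have e2 := le_row_iff p (i := i) (j := j + 1 + 1) hi (by omega)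
      rcases Nat.lt_or_ge (row p i) (j + 1) with h | h
      · -- row = j
        right
        refine ⟨j, ?_, by omega, rfl⟩
        have hcnt : 2 ≤ p.parts.count j := by omega
        simp only [S2, mem_filter, Multiset.mem_toFinset]
        exact ⟨Multiset.count_pos.mp (by omega), hcnt⟩
      · left
        refine ⟨j + 1, ?_, by omega, by omega⟩
        have hcnt : 1 ≤ p.parts.count (j + 1) := by omega
        have hcnt0 : p.parts.count j = 0 := by omega
        simp only [S1, mem_filter, Multiset.mem_toFinset]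
        refine ⟨Multiset.count_pos.mp (by omega), by omega, ?_⟩
        simpa using Multiset.count_eq_zero.mp hcnt0
    · rintro (⟨x, hx, h1, h2⟩ | ⟨x, hx, h1, h2⟩)
      · simp only [S1, mem_filter, Multiset.mem_toFinset] at hx
        obtain ⟨hxm, hx2, hxn⟩ := hx
        obtain ⟨y, rfl⟩ : ∃ y, x = y + 1 := ⟨x - 1, by omega⟩
        simp only [Nat.add_sub_cancel] at h2 hxn
        subst h2
        have hcs := col_succ p y
        have hcs1 := col_succ p (y + 1)
        have hc0 : p.parts.count y = 0 := Multiset.count_eq_zero.mpr hxn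
        have hc1 : 0 < p.parts.count (y + 1) := Multiset.count_pos.mpr hxm
        have hi : 1 ≤ i := by omega
        have e0 := le_row_iff p (i := i) (j := y) hi (by omega)
        have e1 := le_row_iff p (i := i) (j := y + 1) hi (by omega)
        have e2 := le_row_iff p (i := i) (j := y + 1 + 1) hi (by omega)
        refine ⟨⟨hi, by omega, by omega⟩, by omega⟩
      · simp only [S2, mem_filter, Multiset.mem_toFinset] at hx
        obtain ⟨hxm, hx2⟩ := hx
        subst h2
        have hpos := p.parts_pos hxm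
        have hcs := col_succ p x
        have hi : 1 ≤ i := by omega
        have e0 := le_row_iff p (i := i) (j := x) hi (by omega)
        have e1 := le_row_iff p (i := i) (j := x + 1) hi (by omega)
        refine ⟨⟨hi, by omega, by omega⟩, by omega⟩
  unfold h2
  rw [key, card_union_of_disjoint, card_image_of_injOn, card_image_of_injOn]
  · intro x _ y _ h
    simp only [Prod.mk.injEq] at h
    exact h.2
  · intro x hx y hy h
    simp only [Prod.mk.injEq] at h
    simp only [S1, coe_filter, Multiset.mem_toFinset, Set.mem_ofPred_eq] at hx hy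
    omega
  · rw [Finset.disjoint_left]
    rintro ⟨i, j⟩ ha hb
    simp only [mem_image, Prod.mk.injEq] at ha hb
    obtain ⟨x, hx, h1, h2⟩ := ha
    obtain ⟨y, hy, h3, h4⟩ := hb
    simp only [S1, S2, mem_filter, Multiset.mem_toFinset] at hx hy
    obtain ⟨hxm, hx2, hxn⟩ := hx
    subst h4
    rw [h2] at hxn
    exact hxn hy.1


/-- Coefficientwise nonnegativity. -/
def Nn (f : ℤ⟦X⟧) : Prop := ∀ n, 0 ≤ coeff n f

theorem Nn.add {f g : ℤ⟦X⟧} (hf : Nn f) (hg : Nn g) : Nn (f + g) := by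
  intro n; rw [map_add]; exact add_nonneg (hf n) (hg n)

theorem Nn.mul {f g : ℤ⟦X⟧} (hf : Nn f) (hg : Nn g) : Nn (f * g) := by
  intro n; rw [coeff_mul]; exact Finset.sum_nonneg fun x _ => mul_nonneg (hf _) (hg _)

theorem nn_zero : Nn 0 := by intro n; simp

theorem nn_one : Nn 1 := by
  intro n; rw [coeff_one]; split_ifs <;> simp

theorem nn_X_pow (k : ℕ) : Nn (X ^ k) := by
  intro n; rw [coeff_X_pow]; split_ifs <;> simp

theorem nn_sum {ι : Type*} (s : Finset ι) (f : ι → ℤ⟦X⟧) (h : ∀ i ∈ s, Nn (f i)) :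
    Nn (∑ i ∈ s, f i) := by
  classical
  induction s using Finset.induction_on with
  | empty => simpa using nn_zero
  | insert a s ha ih =>
    rw [Finset.sum_insert ha]
    exact (h a (mem_insert_self a s)).add (ih fun i hi => h i (mem_insert_of_mem hi))

theorem nn_prod {ι : Type*} (s : Finset ι) (f : ι → ℤ⟦X⟧) (h : ∀ i ∈ s, Nn (f i)) :
    Nn (∏ i ∈ s, f i) := by
  classical
  induction s using Finset.induction_on with
  | empty => simpa using nn_one
  | insert a s ha ih =>
    rw [Finset.prod_insert ha]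
    exact (h a (mem_insert_self a s)).mul (ih fun i hi => h i (mem_insert_of_mem hi))

/-- Coefficientwise order. -/
def Le (f g : ℤ⟦X⟧) : Prop := Nn (g - f)

theorem Le.refl (f : ℤ⟦X⟧) : Le f f := by unfold Le; rw [sub_self]; exact nn_zero

theorem Le.trans {f g h : ℤ⟦X⟧} (h1 : Le f g) (h2 : Le g h) : Le f h := by
  unfold Le at *
  have := h1.add h2
  rwa [show g - f + (h - g) = h - f by ring] at this

theorem Le.mul_right {f g h : ℤ⟦X⟧} (h1 : Le f g) (hh : Nn h) : Le (f * h) (g * h) := by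
  unfold Le at *
  rw [← sub_mul]; exact h1.mul hh

theorem Le.mul_left {f g h : ℤ⟦X⟧} (h1 : Le f g) (hh : Nn h) : Le (h * f) (h * g) := by
  unfold Le at *
  rw [← mul_sub]; exact hh.mul h1

theorem Le.nn {f g : ℤ⟦X⟧} (h : Le f g) (hf : Nn f) : Nn g := by
  have := Nn.add h hf
  rwa [sub_add_cancel] at this

theorem le_mul {f g h k : ℤ⟦X⟧} (h1 : Le f g) (h2 : Le h k) (hf : Nn f) (hh : Nn h) :
    Le (f * h) (g * k) :=
  (h1.mul_right hh).trans (h2.mul_left (h1.nn hf))

theorem le_prod {ι : Type*} (s : Finset ι) (f g : ι → ℤ⟦X⟧) (h : ∀ i ∈ s, Nn (f i))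
    (hfg : ∀ i ∈ s, Le (f i) (g i)) :
    Le (∏ i ∈ s, f i) (∏ i ∈ s, g i) := by
  classical
  induction s using Finset.induction_on with
  | empty => simpa using Le.refl 1
  | insert a s ha ih =>
    rw [Finset.prod_insert ha, Finset.prod_insert ha]
    exact le_mul (hfg a (mem_insert_self a s))
      (ih (fun i hi => h i (mem_insert_of_mem hi)) fun i hi => hfg i (mem_insert_of_mem hi))
      (h a (mem_insert_self a s))
      (nn_prod _ _ fun i hi => h i (mem_insert_of_mem hi))

/-- The geometric series `1 / (1 - X ^ k)` for `k ≥ 1`. -/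
noncomputable def geo (k : ℕ) : ℤ⟦X⟧ := PowerSeries.mk fun n => if k ∣ n then 1 else 0

theorem nn_geo (k : ℕ) : Nn (geo k) := by
  intro n; unfold geo; rw [coeff_mk]; split_ifs <;> simp

theorem geo_mul (k : ℕ) (hk : 1 ≤ k) : geo k * (1 - X ^ k) = 1 := by
  rw [mul_sub, mul_one]
  ext n
  rw [map_sub, coeff_mul_X_pow', coeff_one]
  unfold geo
  simp only [coeff_mk]
  by_cases hn : n = 0
  · subst hn
    have : ¬ k ≤ 0 := by omega
    simp [this]
  · by_cases hd : k ∣ n
    · have h1 : k ≤ n := Nat.le_of_dvd (by omega) hd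
      have h2 : k ∣ n - k := Nat.dvd_sub hd (dvd_refl k)
      simp [hn, hd, h1, h2]
    · by_cases h1 : k ≤ n
      · have h2 : ¬ k ∣ n - k := by
          intro h
          apply hd
          have := Nat.dvd_add h (dvd_refl k)
          rwa [Nat.sub_add_cancel h1] at this
        simp [hn, hd, h2]
      · simp [hn, hd, h1]

theorem geo_ne {k : ℕ} (hk : 1 ≤ k) : (1 - X ^ k : ℤ⟦X⟧) ≠ 0 := by
  intro h
  have := geo_mul k hk
  rw [h, mul_zero] at this
  exact zero_ne_one this

/-- `(1 + X^k) / (1 - X^(2k)) = 1 / (1 - X^k)` -/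
theorem geo_two (k : ℕ) (hk : 1 ≤ k) : (1 + X ^ k) * geo (2 * k) = geo k := by
  have h1 := geo_mul k hk
  have h2 := geo_mul (2 * k) (by omega)
  have hne := geo_ne hk
  apply mul_right_cancel₀ hne
  rw [h1]
  have : (1 + X ^ k : ℤ⟦X⟧) * (1 - X ^ k) = 1 - X ^ (2 * k) := by
    rw [show 2 * k = k + k by ring, pow_add]; ring
  calc (1 + X ^ k) * geo (2 * k) * (1 - X ^ k) = geo (2 * k) * ((1 + X ^ k) * (1 - X ^ k)) := by ring
    _ = 1 := by rw [this, h2]

theorem one_add_le_geo (k : ℕ) (hk : 1 ≤ k) : Le (1 + X ^ k) (geo k) := by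
  rw [← geo_two k hk]
  have h : Le (1 : ℤ⟦X⟧) (geo (2 * k)) := by
    intro n
    unfold geo
    rw [map_sub, coeff_mk, coeff_one]
    by_cases hn : n = 0
    · subst hn; simp
    · by_cases hd : 2 * k ∣ n <;> simp [hn, hd]
  have := h.mul_left (nn_one.add (nn_X_pow k))
  rwa [mul_one] at this

theorem one_le_geo (k : ℕ) (hk : 1 ≤ k) : Le 1 (geo k) := by
  refine Le.trans ?_ (one_add_le_geo k hk)
  unfold Le
  rw [add_sub_cancel_left]
  exact nn_X_pow k

/-- Odd numbers in `[a, N]`. -/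
def odds (a N : ℕ) : Finset ℕ := (Icc a N).filter Odd

theorem mem_odds {a N m : ℕ} : m ∈ odds a N ↔ a ≤ m ∧ m ≤ N ∧ Odd m := by
  unfold odds; simp [and_assoc]

theorem prod_Icc_split (a N c : ℕ) :
    (∏ j ∈ Icc a N, (1 + X ^ (c * j) : ℤ⟦X⟧)) =
      (∏ j ∈ odds a N, (1 + X ^ (c * j))) *
        ∏ i ∈ Icc ((a + 1) / 2) (N / 2), (1 + X ^ (2 * c * i)) := by
  rw [← Finset.prod_filter_mul_prod_filter_not (Icc a N) Odd]
  congr 1
  symm
  apply Finset.prod_bij (fun i _ => 2 * i)
  · intro i hi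
    simp only [mem_filter, mem_Icc] at hi ⊢
    refine ⟨by omega, ?_⟩
    rw [Nat.not_odd_iff_even]; exact even_two_mul i
  · intro i _ j _ h; omega
  · intro j hj
    simp only [mem_filter, mem_Icc, Nat.not_odd_iff_even] at hj
    obtain ⟨hj1, k, hk⟩ := hj
    exact ⟨k, by simp only [mem_Icc]; omega, by omega⟩
  · intro i _
    congr 2; ring

theorem merge (s t : Finset ℕ) (hst : t ⊆ s) (c : ℕ) (hc : 1 ≤ c) (hs : ∀ i ∈ s, 1 ≤ i) :
    Le ((∏ i ∈ s, (1 + X ^ (c * i) : ℤ⟦X⟧)) * ∏ i ∈ t, geo (2 * c * i))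
      (∏ i ∈ s, geo (c * i)) := by
  rw [← Finset.prod_sdiff hst, ← Finset.prod_sdiff hst, mul_assoc]
  have hpos : ∀ i ∈ s, 1 ≤ c * i := fun i hi => Nat.mul_pos hc (hs i hi)
  apply le_mul
  · apply le_prod
    · intro i _; exact nn_one.add (nn_X_pow _)
    · intro i hi
      exact one_add_le_geo _ (hpos i (mem_sdiff.mp hi).1)
  · rw [← Finset.prod_mul_distrib]
    have : ∀ i ∈ t, (1 + X ^ (c * i)) * geo (2 * c * i) = geo (c * i) := by
      intro i hi
      rw [mul_assoc 2 c i]
      exact geo_two _ (hpos i (hst hi))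
    rw [Finset.prod_congr rfl this]
    exact Le.refl _
  · exact nn_prod _ _ fun i _ => nn_one.add (nn_X_pow _)
  · exact (nn_prod _ _ fun i _ => nn_one.add (nn_X_pow _)).mul (nn_prod _ _ fun i _ => nn_geo _)

/-- Glaisher-type inequality. -/
theorem glaisher (N : ℕ) : ∀ c, 1 ≤ c →
    Le (∏ j ∈ Icc 1 N, (1 + X ^ (c * j) : ℤ⟦X⟧)) (∏ m ∈ odds 1 N, geo (c * m)) := by
  induction N using Nat.strong_induction_on with
  | _ N ih =>
    intro c hc
    rcases Nat.eq_zero_or_pos N with h0 | h0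
    · subst h0
      have : odds 1 0 = ∅ := by
        ext x; simp [mem_odds]; omega
      rw [this]; simpa using Le.refl 1
    · rw [prod_Icc_split]
      have hN := ih (N / 2) (by omega) (2 * c) (by omega)
      have nn1 : Nn (∏ j ∈ odds 1 N, (1 + X ^ (c * j) : ℤ⟦X⟧)) :=
        nn_prod _ _ fun i _ => nn_one.add (nn_X_pow _)
      refine (hN.mul_left nn1).trans ?_
      apply merge _ _ _ c hc
      · intro i hi; exact (mem_odds.mp hi).1
      · intro x; simp only [mem_odds]
        rintro ⟨h1, h2, h3⟩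
        exact ⟨h1, by omega, h3⟩

theorem odds_one_eq (K : ℕ) (hK : 1 ≤ K) : odds 1 K = insert 1 (odds 3 K) := by
  ext x
  simp only [mem_odds, mem_insert]
  constructor
  · rintro ⟨h1, h2, k, hk⟩
    rcases Nat.eq_zero_or_pos k with h | h
    · left; omega
    · right; exact ⟨by omega, h2, k, hk⟩
  · rintro (rfl | ⟨h1, h2, h3⟩)
    · exact ⟨le_refl _, hK, odd_one⟩
    · exact ⟨by omega, h2, h3⟩

theorem glaisher3 (N : ℕ) :
    Le (∏ j ∈ Icc 3 N, (1 + X ^ j : ℤ⟦X⟧)) (geo 4 * ∏ m ∈ odds 3 N, geo m) := by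
  have e1 := prod_Icc_split 3 N 1
  have e2 := prod_Icc_split 2 (N / 2) 2
  simp only [one_mul, mul_one, Nat.reduceAdd, Nat.reduceDiv, Nat.reduceMul] at e1 e2
  rw [e1, e2]
  have o2 : odds 2 (N / 2) = odds 3 (N / 2) := by
    ext x
    simp only [mem_odds]
    constructor
    · rintro ⟨h1, h2, k, hk⟩; exact ⟨by omega, h2, k, hk⟩
    · rintro ⟨h1, h2, h3⟩; exact ⟨by omega, h2, h3⟩
  rw [o2]
  have hg := glaisher (N / 2 / 2) 4 (by norm_num)
  have hg2 : Le (∏ m ∈ odds 1 (N / 2 / 2), geo (4 * m))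
      (geo 4 * ∏ m ∈ odds 3 (N / 2 / 2), geo (4 * m)) := by
    rcases Nat.eq_zero_or_pos (N / 2 / 2) with h | h
    · rw [h]
      have h1 : odds 1 0 = ∅ := by ext x; simp [mem_odds]; omega
      have h3 : odds 3 0 = ∅ := by ext x; simp [mem_odds]; omega
      rw [h1, h3]
      simpa using one_le_geo 4 (by norm_num)
    · rw [odds_one_eq _ h, Finset.prod_insert]
      · rw [mul_one]; exact Le.refl _
      · simp [mem_odds]
  have hg3 := hg.trans hg2
  have sub1 : odds 3 (N / 2 / 2) ⊆ odds 3 (N / 2) := by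
    intro x; simp only [mem_odds]
    rintro ⟨h1, h2, h3⟩
    exact ⟨h1, by omega, h3⟩
  have sub2 : odds 3 (N / 2) ⊆ odds 3 N := by
    intro x; simp only [mem_odds]
    rintro ⟨h1, h2, h3⟩
    exact ⟨h1, by omega, h3⟩
  have m1 := merge _ _ sub1 2 (by norm_num) (fun i hi => by
    have := (mem_odds.mp hi).1; omega)
  have m2 := merge _ _ sub2 1 (by norm_num) (fun i hi => by
    have := (mem_odds.mp hi).1; omega)
  simp only [one_mul, mul_one, Nat.reduceMul] at m1 m2
  have nnA : Nn (∏ j ∈ odds 3 N, (1 + X ^ j : ℤ⟦X⟧)) :=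
    nn_prod _ _ fun i _ => nn_one.add (nn_X_pow _)
  have nnB : Nn (∏ j ∈ odds 3 (N / 2), (1 + X ^ (2 * j) : ℤ⟦X⟧)) :=
    nn_prod _ _ fun i _ => nn_one.add (nn_X_pow _)
  refine ((hg3.mul_left nnB).mul_left nnA).trans ?_
  have r1 : (∏ j ∈ odds 3 N, (1 + X ^ j : ℤ⟦X⟧)) * ((∏ j ∈ odds 3 (N / 2), (1 + X ^ (2 * j))) *
      (geo 4 * ∏ m ∈ odds 3 (N / 2 / 2), geo (4 * m))) =
      geo 4 * ((∏ j ∈ odds 3 N, (1 + X ^ j)) * ((∏ j ∈ odds 3 (N / 2), (1 + X ^ (2 * j))) *
      (∏ m ∈ odds 3 (N / 2 / 2), geo (4 * m)))) := by ring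
  rw [r1]
  exact ((m1.mul_left nnA).trans m2).mul_left (nn_geo 4)

theorem geo_box (k m : ℕ) (hk : 1 ≤ k) :
    geo k * (1 - X ^ (k * m)) = ∑ i ∈ range m, X ^ (k * i) := by
  have h : (∑ i ∈ range m, (X ^ k : ℤ⟦X⟧) ^ i) * (1 - X ^ k) = 1 - (X ^ k) ^ m :=
    geom_sum_mul_neg (X ^ k : ℤ⟦X⟧) m
  simp only [← pow_mul] at h
  rw [← h, mul_comm (∑ i ∈ range m, _), ← mul_assoc, geo_mul k hk, one_mul]

theorem nn_geo_box (k m : ℕ) (hk : 1 ≤ k) : Nn (geo k * (1 - X ^ (k * m))) := by
  rw [geo_box k m hk]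
  exact nn_sum _ _ fun i _ => nn_X_pow _

/-- For a finite set `S`, the number of `x ∈ S` with `x ≥ 2` and `x - 1 ∉ S`. -/
def hs (S : Finset ℕ) : ℕ := (S.filter (fun x => 2 ≤ x ∧ x - 1 ∉ S)).card

theorem hs_insert (L : ℕ) (S : Finset ℕ) (hS : S ⊆ Icc 1 (L + 1)) :
    hs (insert (L + 2) S) = hs S + if L + 1 ∈ S then 0 else 1 := by
  unfold hs
  have hn : L + 2 ∉ S := fun h => by
    have := mem_Icc.mp (hS h); omega
  have key : (S.filter fun x => 2 ≤ x ∧ x - 1 ∉ insert (L + 2) S) =
      S.filter fun x => 2 ≤ x ∧ x - 1 ∉ S := by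
    apply Finset.filter_congr
    intro x hx
    have := mem_Icc.mp (hS hx)
    have h1 : x - 1 ≠ L + 2 := by omega
    simp [h1]
  rw [Finset.filter_insert, key]
  have h2 : L + 2 - 1 = L + 1 := rfl
  by_cases h : L + 1 ∈ S
  · have : ¬ (2 ≤ L + 2 ∧ L + 2 - 1 ∉ insert (L + 2) S) := by
      rw [h2]; simp [h]
    rw [if_neg this, if_pos h, add_zero]
  · have : (2 ≤ L + 2 ∧ L + 2 - 1 ∉ insert (L + 2) S) := by
      rw [h2]; simp [h]
    rw [if_pos this, if_neg h, Finset.card_insert_of_notMem]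
    simp [hn]

/-- The weighted generating function of sets of positive integers at most `L`. -/
noncomputable def beta (f : ℕ → ℤ) (L : ℕ) : ℤ⟦X⟧ :=
  ∑ S ∈ (Icc 1 L).powerset, f (hs S) • (X : ℤ⟦X⟧) ^ (∑ x ∈ S, x)

theorem beta_rec (f : ℕ → ℤ) (L : ℕ) :
    beta f (L + 2) = (1 + X ^ (L + 2)) * beta f (L + 1) +
      X ^ (L + 2) * beta (fun h => f (h + 1) - f h) L := by
  unfold beta
  have e1 : Icc 1 (L + 2) = insert (L + 2) (Icc 1 (L + 1)) := by
    ext x; simp only [mem_Icc, mem_insert]; omega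
  have n1 : L + 2 ∉ Icc 1 (L + 1) := by simp
  rw [e1, Finset.sum_powerset_insert n1]
  have e2 : ∑ t ∈ (Icc 1 (L + 1)).powerset,
      f (hs (insert (L + 2) t)) • (X : ℤ⟦X⟧) ^ (∑ x ∈ insert (L + 2) t, x) =
      X ^ (L + 2) * (∑ t ∈ (Icc 1 (L + 1)).powerset, f (hs t) • (X : ℤ⟦X⟧) ^ (∑ x ∈ t, x)) +
      X ^ (L + 2) * ∑ t ∈ (Icc 1 (L + 1)).powerset,
        (if L + 1 ∈ t then 0 else (f (hs t + 1) - f (hs t))) • (X : ℤ⟦X⟧) ^ (∑ x ∈ t, x) := by
    rw [← mul_add, ← Finset.sum_add_distrib, Finset.mul_sum]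
    apply Finset.sum_congr rfl
    intro t ht
    have ht' := mem_powerset.mp ht
    have hn : L + 2 ∉ t := fun h => n1 (ht' h)
    rw [hs_insert L t ht', Finset.sum_insert hn, pow_add, ← add_smul, mul_smul_comm]
    congr 1
    by_cases h : L + 1 ∈ t
    · simp [h]
    · simp [h]
  have e3 : ∑ t ∈ (Icc 1 (L + 1)).powerset,
        (if L + 1 ∈ t then 0 else (f (hs t + 1) - f (hs t))) • (X : ℤ⟦X⟧) ^ (∑ x ∈ t, x) =
      ∑ t ∈ (Icc 1 L).powerset, (f (hs t + 1) - f (hs t)) • (X : ℤ⟦X⟧) ^ (∑ x ∈ t, x) := by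
    symm
    apply Finset.sum_subset_zero_on_sdiff
    · apply Finset.powerset_mono.mpr
      intro x; simp only [mem_Icc]; omega
    · intro t ht
      have hmem : L + 1 ∈ t := by
        by_contra hc
        apply (mem_sdiff.mp ht).2
        rw [mem_powerset]
        intro x hx
        have h1 := mem_Icc.mp (mem_powerset.mp (mem_sdiff.mp ht).1 hx)
        have h2 : x ≠ L + 1 := fun h => hc (h ▸ hx)
        rw [mem_Icc]; omega
      simp [hmem]
    · intro t ht
      have : L + 1 ∉ t := fun h => by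
        have := mem_Icc.mp (mem_powerset.mp ht h); omega
      simp [this]
  rw [e2, e3]
  ring

theorem beta_zero (f : ℕ → ℤ) : beta f 0 = f 0 • (1 : ℤ⟦X⟧) := by
  unfold beta
  have : Icc 1 0 = (∅ : Finset ℕ) := by decide
  rw [this]
  simp [hs]

theorem beta_one (f : ℕ → ℤ) : beta f 1 = f 0 • (1 + X : ℤ⟦X⟧) := by
  unfold beta
  have : (Icc 1 1).powerset = ({∅, {1}} : Finset (Finset ℕ)) := by decide
  rw [this, Finset.sum_pair (by decide)]
  have h1 : hs ∅ = 0 := by decide
  have h2 : hs {1} = 0 := by decide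
  rw [h1, h2]
  simp [smul_add]

theorem beta_zero_fun (L : ℕ) : beta (fun _ => 0) L = 0 := by
  unfold beta; simp

/-- `beta0 L = ∏ (1 + X ^ j)` -/
theorem beta0_closed (L : ℕ) : beta (fun _ => 1) L = ∏ j ∈ Icc 1 L, (1 + X ^ j : ℤ⟦X⟧) := by
  induction L with
  | zero => rw [beta_zero]; simp
  | succ L ih =>
    cases L with
    | zero => rw [beta_one]; simp
    | succ L =>
      rw [beta_rec, ih]
      simp only [sub_self, beta_zero_fun, mul_zero, add_zero]
      have e1 : Icc 1 (L + 2) = insert (L + 2) (Icc 1 (L + 1)) := by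
        ext x; simp only [mem_Icc, mem_insert]; omega
      rw [e1, Finset.prod_insert (by simp)]

theorem prod_Icc_top (a L : ℕ) (h : a ≤ L + 1) :
    (∏ j ∈ Icc a (L + 1), (1 + X ^ j : ℤ⟦X⟧)) =
      (1 + X ^ (L + 1)) * ∏ j ∈ Icc a L, (1 + X ^ j) := by
  have e1 : Icc a (L + 1) = insert (L + 1) (Icc a L) := by
    ext x; simp only [mem_Icc, mem_insert]; omega
  rw [e1, Finset.prod_insert (by simp)]

theorem prod_Icc_bot (a L : ℕ) (h : a ≤ L) :
    (∏ j ∈ Icc a L, (1 + X ^ j : ℤ⟦X⟧)) =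
      (1 + X ^ a) * ∏ j ∈ Icc (a + 1) L, (1 + X ^ j) := by
  have e1 : Icc a L = insert a (Icc (a + 1) L) := by
    ext x; simp only [mem_Icc, mem_insert]; omega
  rw [e1, Finset.prod_insert (by simp)]

theorem beta1_closed (L : ℕ) : (1 - X) * beta (fun h => (h : ℤ)) (L + 1) =
    X ^ 2 * (1 - X ^ L) * ∏ j ∈ Icc 2 L, (1 + X ^ j : ℤ⟦X⟧) := by
  induction L with
  | zero => rw [beta_one]; simp
  | succ L ih =>
    rw [beta_rec]
    have hd : (fun h : ℕ => (((h + 1 : ℕ) : ℤ) - (h : ℤ))) = fun _ => 1 := by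
      funext h; push_cast; ring
    rw [hd, beta0_closed, mul_add, ← mul_assoc, mul_comm (1 - X) (1 + X ^ (L + 2)), mul_assoc, ih]
    rcases Nat.eq_zero_or_pos L with h0 | h0
    · subst h0; simp; ring
    · rw [prod_Icc_top 2 L (by omega), prod_Icc_bot 1 L (by omega)]
      ring

theorem beta2_closed (L : ℕ) :
    (1 - X) * (1 - X ^ 2) * beta (fun h => ((h.choose 2 : ℕ) : ℤ)) (L + 3) =
    X ^ 6 * (1 - X ^ (L + 1)) * (1 - X ^ L) * ∏ j ∈ Icc 3 (L + 1), (1 + X ^ j : ℤ⟦X⟧) := by
  have hd : (fun h : ℕ => ((((h + 1).choose 2 : ℕ) : ℤ) - ((h.choose 2 : ℕ) : ℤ))) =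
      fun h : ℕ => (h : ℤ) := by
    funext h
    rw [Nat.choose_succ_succ' h 1]
    push_cast; simp
  induction L with
  | zero =>
    rw [beta_rec, hd, beta_rec, hd, beta_one, beta_one, beta_zero]
    simp
  | succ L ih =>
    rw [beta_rec, hd]
    have h1 := beta1_closed (L + 1)
    have h2 : (1 - X) * (1 - X ^ 2) * ((1 + X ^ (L + 1 + 1 + 2)) *
        beta (fun h => ((h.choose 2 : ℕ) : ℤ)) (L + 1 + 1 + 1) +
        X ^ (L + 1 + 1 + 2) * beta (fun h => (h : ℤ)) (L + 1 + 1)) =
        (1 + X ^ (L + 1 + 1 + 2)) * ((1 - X) * (1 - X ^ 2) *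
          beta (fun h => ((h.choose 2 : ℕ) : ℤ)) (L + 3)) +
        X ^ (L + 1 + 1 + 2) * (1 - X ^ 2) *
          ((1 - X) * beta (fun h => (h : ℤ)) (L + 1 + 1)) := by ring
    rw [h2, ih, h1]
    rcases Nat.eq_zero_or_pos L with h0 | h0
    · subst h0; simp; ring
    · rw [prod_Icc_top 3 (L + 1) (by omega), prod_Icc_bot 2 (L + 1) (by omega)]
      ring

/-- The generating function of pairs `3 ≤ s ≤ t ≤ K` of odd numbers. -/
noncomputable def PP (K : ℕ) : ℤ⟦X⟧ := ∑ t ∈ odds 3 K, ∑ s ∈ odds 3 t, X ^ (s + t)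

theorem nn_PP (K : ℕ) : Nn (PP K) := nn_sum _ _ fun _ _ => nn_sum _ _ fun _ _ => nn_X_pow _

theorem odds_succ (L : ℕ) : odds 3 (2 * (L + 1) + 1) = insert (2 * (L + 1) + 1) (odds 3 (2 * L + 1)) := by
  ext x
  simp only [mem_odds, mem_insert]
  constructor
  · rintro ⟨h1, h2, k, hk⟩
    by_cases h : x = 2 * (L + 1) + 1
    · left; exact h
    · right; exact ⟨h1, by omega, k, hk⟩
  · rintro (rfl | ⟨h1, h2, h3⟩)
    · exact ⟨by omega, le_refl _, L + 1, rfl⟩
    · exact ⟨h1, by omega, h3⟩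

theorem odds_not_mem (L : ℕ) : 2 * (L + 1) + 1 ∉ odds 3 (2 * L + 1) := by
  simp only [mem_odds]; omega

theorem sum_odds (L : ℕ) :
    (1 - X ^ 2) * ∑ s ∈ odds 3 (2 * L + 1), (X : ℤ⟦X⟧) ^ s = X ^ 3 * (1 - X ^ (2 * L)) := by
  induction L with
  | zero =>
    have h3 : odds 3 (2 * 0 + 1) = ∅ := by ext x; simp [mem_odds]; omega
    rw [h3]; simp
  | succ L ih =>
    rw [odds_succ, Finset.sum_insert (odds_not_mem L), mul_add, ih]
    ring

theorem PP_closed (L : ℕ) :
    (1 - X ^ 2) * (1 - X ^ 4) * PP (2 * L + 1) =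
      X ^ 6 * (1 - X ^ (2 * L + 2)) * (1 - X ^ (2 * L)) := by
  induction L with
  | zero =>
    have h3 : odds 3 (2 * 0 + 1) = ∅ := by ext x; simp [mem_odds]; omega
    unfold PP
    rw [h3]; simp
  | succ L ih =>
    have h : PP (2 * (L + 1) + 1) = X ^ (2 * (L + 1) + 1) *
        (∑ s ∈ odds 3 (2 * (L + 1) + 1), (X : ℤ⟦X⟧) ^ s) + PP (2 * L + 1) := by
      unfold PP
      rw [odds_succ, Finset.sum_insert (odds_not_mem L), ← odds_succ, Finset.mul_sum]
      congr 1
      apply Finset.sum_congr rfl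
      intro s _; rw [pow_add, mul_comm]
    have h2 := sum_odds (L + 1)
    rw [h, mul_add, ih]
    have h3 : (1 - X ^ 2) * (1 - X ^ 4) * (X ^ (2 * (L + 1) + 1) *
        (∑ s ∈ odds 3 (2 * (L + 1) + 1), (X : ℤ⟦X⟧) ^ s)) =
        (1 - X ^ 4) * X ^ (2 * (L + 1) + 1) * ((1 - X ^ 2) *
        (∑ s ∈ odds 3 (2 * (L + 1) + 1), (X : ℤ⟦X⟧) ^ s)) := by ring
    rw [h3, h2]
    ring

theorem PP_ge (K : ℕ) (hK : 3 ≤ K) : Le (X ^ 6) (PP K) := by
  unfold PP
  have h3 : (3 : ℕ) ∈ odds 3 K := mem_odds.mpr ⟨le_refl _, hK, by decide⟩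
  have h3' : (3 : ℕ) ∈ odds 3 3 := mem_odds.mpr ⟨le_refl _, le_refl _, by decide⟩
  rw [← Finset.add_sum_erase _ _ h3, ← Finset.add_sum_erase _ _ h3']
  unfold Le
  have : (X ^ (3 + 3) : ℤ⟦X⟧) = X ^ 6 := by norm_num
  rw [this, add_assoc, add_sub_cancel_left]
  exact (nn_sum _ _ fun _ _ => nn_X_pow _).add
    (nn_sum _ _ fun _ _ => nn_sum _ _ fun _ _ => nn_X_pow _)

theorem prod_geo_mono {s t : Finset ℕ} (h : s ⊆ t) (hpos : ∀ i ∈ t, 1 ≤ i) :
    Le (∏ i ∈ s, geo i) (∏ i ∈ t, geo i) := by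
  rw [← Finset.prod_sdiff h]
  have h1 : Le (1 : ℤ⟦X⟧) (∏ i ∈ t \ s, geo i) := by
    have := le_prod (t \ s) (fun _ => (1 : ℤ⟦X⟧)) (fun i => geo i) (fun _ _ => nn_one)
      (fun i hi => one_le_geo i (hpos i (mem_sdiff.mp hi).1))
    simpa using this
  have := h1.mul_right (nn_prod s geo fun i _ => nn_geo i)
  rwa [one_mul] at this

/-- The main inequality between generating functions. -/
theorem beta2_le (L : ℕ) : Le (beta (fun h => ((h.choose 2 : ℕ) : ℤ)) (L + 1))
    (PP (2 * L + 1) * ∏ m ∈ odds 1 (2 * L + 1), geo m) := by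
  have nnprod : ∀ s : Finset ℕ, Nn (∏ m ∈ s, geo m) := fun s => nn_prod _ _ fun _ _ => nn_geo _
  have hd : (fun h : ℕ => ((((h + 1).choose 2 : ℕ) : ℤ) - ((h.choose 2 : ℕ) : ℤ))) =
      fun h : ℕ => (h : ℤ) := by
    funext h
    rw [Nat.choose_succ_succ' h 1]
    push_cast; simp
  have nnR : Nn (PP (2 * L + 1) * ∏ m ∈ odds 1 (2 * L + 1), geo m) := (nn_PP _).mul (nnprod _)
  have z1 : beta (fun h => ((h.choose 2 : ℕ) : ℤ)) 1 = 0 := by rw [beta_one]; simp
  have z2 : beta (fun h => ((h.choose 2 : ℕ) : ℤ)) 2 = 0 := by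
    rw [beta_rec, hd, z1, beta_zero]; simp
  have z3 : beta (fun h => ((h.choose 2 : ℕ) : ℤ)) 3 = 0 := by
    rw [beta_rec, hd, z2, beta_one]; simp
  have h1ne : (1 - X : ℤ⟦X⟧) ≠ 0 := by
    have := geo_ne (k := 1) (le_refl _); rwa [pow_one] at this
  have h2ne : (1 - X ^ 2 : ℤ⟦X⟧) ≠ 0 := geo_ne (by norm_num)
  have h4ne : (1 - X ^ 4 : ℤ⟦X⟧) ≠ 0 := geo_ne (by norm_num)
  have g1 : geo 1 * (1 - X) = 1 := by have := geo_mul 1 (le_refl _); rwa [pow_one] at this
  have g2 := geo_mul 2 (by norm_num)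
  have g4 := geo_mul 4 (by norm_num)
  rcases Nat.lt_or_ge L 3 with hL | hL
  · have : beta (fun h => ((h.choose 2 : ℕ) : ℤ)) (L + 1) = 0 := by
      interval_cases L
      · exact z1
      · exact z2
      · exact z3
    rw [this]
    unfold Le; rw [sub_zero]; exact nnR
  · obtain ⟨N, rfl⟩ : ∃ N, L = N + 3 := ⟨L - 3, by omega⟩
    have hc := beta2_closed (N + 1)
    have e1 : (1 : ℕ) ≤ 2 * (N + 3) + 1 := by omega
    have hodds : odds 1 (2 * (N + 3) + 1) = insert 1 (odds 3 (2 * (N + 3) + 1)) :=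
      odds_one_eq _ e1
    have hprod : (∏ m ∈ odds 1 (2 * (N + 3) + 1), geo m) =
        geo 1 * ∏ m ∈ odds 3 (2 * (N + 3) + 1), geo m := by
      rw [hodds, Finset.prod_insert]
      simp [mem_odds]
    have hPP := PP_closed (N + 3)
    rcases Nat.lt_or_ge N 2 with hN | hN
    · -- N = 0 or N = 1
      have hb : Le (beta (fun h => ((h.choose 2 : ℕ) : ℤ)) (N + 3 + 1)) (X ^ 6 * (geo 1 * geo 3)) := by
        rcases (show N = 0 ∨ N = 1 by omega) with rfl | rfl
        · have : beta (fun h => ((h.choose 2 : ℕ) : ℤ)) (0 + 3 + 1) = X ^ 6 := by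
            apply mul_left_cancel₀ (mul_ne_zero h1ne h2ne)
            have h34 : beta (fun h => ((h.choose 2 : ℕ) : ℤ)) (0 + 3 + 1) =
              beta (fun h => ((h.choose 2 : ℕ) : ℤ)) (0 + 1 + 3) := rfl
            rw [h34, hc]; simp; ring
          rw [this]
          have h13 := le_mul (one_le_geo 1 (le_refl _)) (one_le_geo 3 (by norm_num)) nn_one nn_one
          have := h13.mul_left (nn_X_pow 6)
          rwa [mul_one, mul_one] at this
        · have : beta (fun h => ((h.choose 2 : ℕ) : ℤ)) (1 + 3 + 1) =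
              X ^ 6 * ((geo 1 * (1 - X ^ (1 * 3))) * (1 + X ^ 3)) := by
            apply mul_left_cancel₀ (mul_ne_zero h1ne h2ne)
            have h34 : beta (fun h => ((h.choose 2 : ℕ) : ℤ)) (1 + 3 + 1) =
              beta (fun h => ((h.choose 2 : ℕ) : ℤ)) (1 + 1 + 3) := rfl
            rw [h34, hc]
            have : (1 - X) * (1 - X ^ 2) * (X ^ 6 * (geo 1 * (1 - X ^ (1 * 3)) * (1 + X ^ 3))) =
              (geo 1 * (1 - X)) * ((1 - X ^ 2) * X ^ 6 * (1 - X ^ 3) * (1 + X ^ 3)) := by ring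
            rw [this, g1]
            have hI : Icc 3 (1 + 1 + 1) = {3} := by decide
            rw [hI, Finset.prod_singleton]
            ring
          rw [this]
          apply Le.mul_left _ (nn_X_pow 6)
          apply le_mul
          · unfold Le
            rw [mul_sub, mul_one]
            have : geo 1 - (geo 1 - geo 1 * X ^ (1 * 3)) = geo 1 * X ^ 3 := by ring
            rw [this]
            exact (nn_geo 1).mul (nn_X_pow 3)
          · exact one_add_le_geo 3 (by norm_num)
          · exact nn_geo_box 1 3 (le_refl _)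
          · exact nn_one.add (nn_X_pow 3)
      refine hb.trans ?_
      apply le_mul
      · exact PP_ge _ (by omega)
      · rw [hprod]
        apply Le.mul_left _ (nn_geo 1)
        have h3sub : ({3} : Finset ℕ) ⊆ odds 3 (2 * (N + 3) + 1) := by
          rw [Finset.singleton_subset_iff]
          exact mem_odds.mpr ⟨le_refl _, by omega, by decide⟩
        have := prod_geo_mono h3sub (fun i hi => by have := (mem_odds.mp hi).1; omega)
        rwa [Finset.prod_singleton] at this
      · exact nn_X_pow 6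
      · exact (nn_geo 1).mul (nn_geo 3)
    · -- N ≥ 2
      have hb : beta (fun h => ((h.choose 2 : ℕ) : ℤ)) (N + 3 + 1) =
          X ^ 6 * ((geo 1 * (1 - X ^ (1 * (2 * N + 2)))) * (geo 2 * (1 - X ^ (2 * (N + 2))))) *
            ∏ j ∈ Icc 3 N, (1 + X ^ j) := by
        apply mul_left_cancel₀ (mul_ne_zero h1ne h2ne)
        have h34 : beta (fun h => ((h.choose 2 : ℕ) : ℤ)) (N + 3 + 1) =
          beta (fun h => ((h.choose 2 : ℕ) : ℤ)) (N + 1 + 3) := rfl
        rw [h34, hc]
        have : (1 - X) * (1 - X ^ 2) * (X ^ 6 * ((geo 1 * (1 - X ^ (1 * (2 * N + 2)))) *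
            (geo 2 * (1 - X ^ (2 * (N + 2))))) * ∏ j ∈ Icc 3 N, (1 + X ^ j : ℤ⟦X⟧)) =
          (geo 1 * (1 - X)) * (geo 2 * (1 - X ^ 2)) * (X ^ 6 * (1 - X ^ (2 * N + 2)) *
            (1 - X ^ (2 * (N + 2))) * ∏ j ∈ Icc 3 N, (1 + X ^ j : ℤ⟦X⟧)) := by
          rw [one_mul]; ring
        rw [this, g1, g2, prod_Icc_top 3 (N + 1) (by omega), prod_Icc_top 3 N (by omega)]
        ring
      have nnF : Nn (X ^ 6 * ((geo 1 * (1 - X ^ (1 * (2 * N + 2)))) *
          (geo 2 * (1 - X ^ (2 * (N + 2)))))) :=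
        (nn_X_pow 6).mul ((nn_geo_box 1 _ (le_refl _)).mul (nn_geo_box 2 _ (by norm_num)))
      rw [hb]
      refine ((glaisher3 N).mul_left nnF).trans ?_
      -- now compare
      have hPP' : PP (2 * (N + 3) + 1) = X ^ 6 * (1 - X ^ (2 * N + 8)) * (1 - X ^ (2 * N + 6)) *
          (geo 2 * geo 4) := by
        apply mul_left_cancel₀ (mul_ne_zero h2ne h4ne)
        rw [hPP]
        have : (1 - X ^ 2) * (1 - X ^ 4) * (X ^ 6 * (1 - X ^ (2 * N + 8)) * (1 - X ^ (2 * N + 6)) *
          (geo 2 * geo 4)) = (geo 2 * (1 - X ^ 2)) * (geo 4 * (1 - X ^ 4)) *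
          (X ^ 6 * (1 - X ^ (2 * N + 8)) * (1 - X ^ (2 * N + 6))) := by ring
        rw [this, g2, g4]
        ring
      have step : Le (X ^ 6 * ((geo 1 * (1 - X ^ (1 * (2 * N + 2)))) *
          (geo 2 * (1 - X ^ (2 * (N + 2))))) * (geo 4 * ∏ m ∈ odds 3 N, geo m))
          (PP (2 * (N + 3) + 1) * (geo 1 * ∏ m ∈ odds 3 N, geo m)) := by
        rw [hPP']
        unfold Le
        have e : X ^ 6 * (1 - X ^ (2 * N + 8)) * (1 - X ^ (2 * N + 6)) * (geo 2 * geo 4) *
            (geo 1 * ∏ m ∈ odds 3 N, geo m) -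
            X ^ 6 * ((geo 1 * (1 - X ^ (1 * (2 * N + 2)))) *
            (geo 2 * (1 - X ^ (2 * (N + 2))))) * (geo 4 * ∏ m ∈ odds 3 N, geo m) =
            (geo 4 * (1 - X ^ 4)) * (X ^ 6 * (geo 1 * ∏ m ∈ odds 3 N, geo m) *
              (X ^ (2 * N + 2) * (geo 2 * (1 - X ^ (2 * (N + 2)))) +
               X ^ (2 * N + 4) * (geo 2 * (1 - X ^ (2 * (N + 3)))))) := by
          rw [one_mul]; ring
        rw [e, g4, one_mul]
        refine ((nn_X_pow 6).mul ((nn_geo 1).mul (nnprod _))).mul ?_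
        exact ((nn_X_pow _).mul (nn_geo_box 2 _ (by norm_num))).add
          ((nn_X_pow _).mul (nn_geo_box 2 _ (by norm_num)))
      refine step.trans ?_
      rw [hprod]
      apply Le.mul_left _ (nn_PP _)
      apply Le.mul_left _ (nn_geo 1)
      apply prod_geo_mono
      · intro x; simp only [mem_odds]
        rintro ⟨h1, h2, h3⟩
        exact ⟨h1, by omega, h3⟩
      · intro i hi; have := (mem_odds.mp hi).1; omega

/-- Partitions of `n` with all parts in `T`. -/
def resT (T : Finset ℕ) (n : ℕ) : Finset n.Partition :=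
  univ.filter (fun p => ∀ x ∈ p.parts, x ∈ T)

theorem card_contains (T : Finset ℕ) (n k : ℕ) (m : Multiset ℕ) (hT : ∀ x ∈ T, 1 ≤ x)
    (hm : ∀ x ∈ m, x ∈ T) (hk : m.sum = k) :
    ((resT T n).filter (fun p => m ≤ p.parts)).card =
      if k ≤ n then (resT T (n - k)).card else 0 := by
  subst hk
  split_ifs with h
  · apply Finset.card_bij' (i := fun (p : n.Partition) (hp : p ∈ (resT T n).filter (fun p => m ≤ p.parts)) =>
      (⟨p.parts - m, fun {x} hx => p.parts_pos (Multiset.mem_of_le (Multiset.sub_le_self _ _) hx), by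
        have h1 : m ≤ p.parts := (mem_filter.mp hp).2
        have h2 : p.parts - m + m = p.parts := Multiset.sub_add_cancel h1
        have h3 := congrArg Multiset.sum h2
        rw [Multiset.sum_add, p.parts_sum] at h3
        omega⟩ : (n - m.sum).Partition))
      (j := fun (q : (n - m.sum).Partition) _ =>
      (⟨q.parts + m, fun {x} hx => by
          rcases Multiset.mem_add.mp hx with hx | hx
          · exact q.parts_pos hx
          · exact hT x (hm x hx), by
        rw [Multiset.sum_add, q.parts_sum]; omega⟩ : n.Partition))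
    · intro p hp
      ext1
      exact Multiset.sub_add_cancel (mem_filter.mp hp).2
    · intro q hq
      ext1
      exact Multiset.add_sub_cancel_right
    · intro p hp
      simp only [resT, mem_filter, mem_univ, true_and] at hp ⊢
      intro x hx
      exact hp.1 x (Multiset.mem_of_le (Multiset.sub_le_self _ _) hx)
    · intro q hq
      simp only [resT, mem_filter, mem_univ, true_and] at hq ⊢
      refine ⟨?_, Multiset.le_add_left _ _⟩
      intro x hx
      rcases Multiset.mem_add.mp hx with hx | hx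
      · exact hq x hx
      · exact hm x hx
  · rw [Finset.card_eq_zero, Finset.filter_eq_empty_iff]
    intro p _ hle
    apply h
    have h2 : p.parts - m + m = p.parts := Multiset.sub_add_cancel hle
    have h3 := congrArg Multiset.sum h2
    rw [Multiset.sum_add, p.parts_sum] at h3
    omega

theorem gen_resT (T : Finset ℕ) (hT : ∀ x ∈ T, 1 ≤ x) :
    (PowerSeries.mk fun n => ((resT T n).card : ℤ)) = ∏ a ∈ T, geo a := by
  classical
  induction T using Finset.induction_on with
  | empty =>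
    rw [Finset.prod_empty]
    ext n
    rw [coeff_mk, coeff_one]
    split_ifs with h
    · subst h
      have : resT ∅ 0 = univ := by
        ext p; simp [resT]
      rw [this]; simp
    · have : resT ∅ n = ∅ := by
        ext p
        simp only [resT, mem_filter, mem_univ, true_and, notMem_empty, iff_false, not_forall]
        by_contra hc
        push Not at hc
        apply h
        have h0 : p.parts = 0 := Multiset.eq_zero_of_forall_notMem fun x hx => by
          exact hc x hx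
        have := p.parts_sum
        rw [h0] at this
        simpa using this.symm
      rw [this]; simp
  | insert a T ha ih =>
    have hpos : 1 ≤ a := hT a (mem_insert_self a T)
    have hT' : ∀ x ∈ T, 1 ≤ x := fun x hx => hT x (mem_insert_of_mem hx)
    rw [Finset.prod_insert ha, ← ih hT']
    apply mul_right_cancel₀ (geo_ne hpos)
    rw [mul_right_comm (geo a), geo_mul a hpos, one_mul]
    ext n
    rw [mul_sub, mul_one, map_sub, coeff_mul_X_pow', coeff_mk, coeff_mk]
    have hc := card_contains (insert a T) n a {a} hT (by simp) (by simp)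
    have hsplit := Finset.card_filter_add_card_filter_not (s := resT (insert a T) n)
      (fun p => ({a} : Multiset ℕ) ≤ p.parts)
    have hno : ((resT (insert a T) n).filter (fun p => ¬ ({a} : Multiset ℕ) ≤ p.parts)) =
        resT T n := by
      ext p
      simp only [resT, mem_filter, mem_univ, true_and, Multiset.singleton_le, mem_insert]
      constructor
      · rintro ⟨h1, h2⟩ x hx
        rcases h1 x hx with rfl | h
        · exact absurd hx h2
        · exact h
      · intro h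
        exact ⟨fun x hx => Or.inr (h x hx), fun hc => ha (h a hc)⟩
    rw [hno, hc] at hsplit
    rw [← hsplit]
    split_ifs with h
    · rw [coeff_mk]; push_cast; ring
    · simp

theorem sum_choose_filter {n : ℕ} (s : Finset n.Partition) :
    ∑ᶠ m : ℕ, m.choose 2 * (s.filter (fun p => h2 p = m)).card = ∑ p ∈ s, (h2 p).choose 2 := by
  classical
  rw [finsum_eq_sum_of_support_subset (s := s.image h2)]
  · rw [← Finset.sum_fiberwise_of_maps_to (t := s.image h2) (g := h2)
      (fun p hp => mem_image_of_mem _ hp)]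
    apply Finset.sum_congr rfl
    intro m _
    rw [Finset.sum_congr rfl (g := fun _ => m.choose 2)]
    · rw [Finset.sum_const, smul_eq_mul, mul_comm]
    · intro p hp; rw [(mem_filter.mp hp).2]
  · intro m hm
    rw [Function.mem_support] at hm
    have h1 : (s.filter (fun p => h2 p = m)).card ≠ 0 := right_ne_zero_of_mul hm
    obtain ⟨p, hp⟩ := Finset.card_ne_zero.mp h1
    rw [mem_filter] at hp
    simp only [coe_image, Set.mem_image, mem_coe]
    exact ⟨p, hp⟩

theorem A_eq (L n : ℕ) : A L n = ∑ p ∈ oddP L n, (h2 p).choose 2 := sum_choose_filter _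

theorem B_eq (L n : ℕ) : B L n = ∑ p ∈ distP L n, (h2 p).choose 2 := sum_choose_filter _

theorem choose_add_ge (d r : ℕ) (h : 1 ≤ r → 1 ≤ d) : d.choose 2 + r ≤ (d + r).choose 2 := by
  induction r with
  | zero => simp
  | succ r ih =>
    have h1 : 1 ≤ d := h (by omega)
    have h2 := ih (fun _ => h1)
    have h3 : (d + (r + 1)).choose 2 = (d + r).choose 1 + (d + r).choose 2 := by
      rw [← add_assoc]; exact Nat.choose_succ_succ' (d + r) 1
    rw [h3, Nat.choose_one_right]
    omega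

theorem oddP_eq (K n : ℕ) : oddP (K + 1) n = resT (odds 1 (2 * K + 1)) n := by
  ext p
  simp only [oddP, resT, mem_filter, mem_univ, true_and, mem_odds]
  constructor
  · intro h x hx
    have := h x hx
    exact ⟨p.parts_pos hx, by omega, this.1⟩
  · intro h x hx
    have := h x hx
    exact ⟨this.2.2, by omega⟩

/-- The number of sub-multisets `{s, t}` with `3 ≤ s ≤ t` of a partition into odd parts is at most
`(h2 choose 2)`. -/
theorem cnt_le (K n : ℕ) (p : n.Partition) (hp : p ∈ resT (odds 1 (2 * K + 1)) n) :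
    ∑ t ∈ odds 3 (2 * K + 1), ∑ s ∈ odds 3 t, (if ({s, t} : Multiset ℕ) ≤ p.parts then 1 else 0) ≤
      (h2 p).choose 2 := by
  classical
  simp only [resT, mem_filter, mem_univ, true_and, mem_odds] at hp
  set D : Finset ℕ := p.parts.toFinset.filter (fun x => 3 ≤ x) with hD
  set R : Finset ℕ := p.parts.toFinset.filter (fun x => 3 ≤ x ∧ 2 ≤ p.parts.count x) with hR
  have hDS : S1 p = D := by
    ext x
    simp only [S1, hD, mem_filter, Multiset.mem_toFinset]
    constructor
    · rintro ⟨h1, h2, h3⟩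
      obtain ⟨_, _, k, hk⟩ := hp x h1
      exact ⟨h1, by omega⟩
    · rintro ⟨h1, h2⟩
      refine ⟨h1, by omega, ?_⟩
      intro hc
      obtain ⟨_, _, k, hk⟩ := hp x h1
      obtain ⟨_, _, l, hl⟩ := hp _ hc
      omega
  have hRS : R ⊆ S2 p := by
    intro x
    simp only [S2, hR, mem_filter, Multiset.mem_toFinset]
    rintro ⟨h1, h2, h3⟩; exact ⟨h1, h3⟩
  have hRD : R ⊆ D := by
    intro x
    simp only [hD, hR, mem_filter, Multiset.mem_toFinset]
    rintro ⟨h1, h2, h3⟩; exact ⟨h1, h2⟩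
  have hh : D.card + R.card ≤ h2 p := by
    rw [h2_eq, hDS]
    exact Nat.add_le_add_left (card_le_card hRS) _
  have hfin : D.card.choose 2 + R.card ≤ (h2 p).choose 2 := by
    refine (choose_add_ge D.card R.card ?_).trans (Nat.choose_le_choose 2 hh)
    intro hr
    exact hr.trans (card_le_card hRD)
  refine le_trans ?_ hfin
  -- rewrite the double sum as the card of a filtered sigma type
  have e1 : ∑ t ∈ odds 3 (2 * K + 1), ∑ s ∈ odds 3 t,
      (if ({s, t} : Multiset ℕ) ≤ p.parts then 1 else 0) =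
      ((((odds 3 (2 * K + 1)).sigma (fun t => odds 3 t))).filter
        (fun x : (_ : ℕ) × ℕ => ({x.2, x.1} : Multiset ℕ) ≤ p.parts)).card := by
    rw [Finset.card_filter, Finset.sum_sigma]
  rw [e1]
  set P := (((odds 3 (2 * K + 1)).sigma (fun t => odds 3 t))).filter
        (fun x : (_ : ℕ) × ℕ => ({x.2, x.1} : Multiset ℕ) ≤ p.parts) with hP
  have hmem : ∀ x : (_ : ℕ) × ℕ, x ∈ P → 3 ≤ x.2 ∧ x.2 ≤ x.1 ∧ x.1 ∈ p.parts ∧ x.2 ∈ p.parts ∧
      (x.1 = x.2 → 2 ≤ p.parts.count x.1) := by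
    rintro ⟨t, s⟩ hx
    simp only [hP, mem_filter, mem_sigma, mem_odds] at hx
    obtain ⟨⟨⟨h1, h2, h3⟩, h4, h5, h6⟩, h7⟩ := hx
    refine ⟨h4, h5, Multiset.mem_of_le h7 (by simp), Multiset.mem_of_le h7 (by simp), ?_⟩
    intro h
    simp only at h
    subst h
    have := Multiset.count_le_of_le t h7
    simpa using this
  have hsplit := Finset.card_filter_add_card_filter_not (s := P) (fun x => x.1 = x.2)
  rw [← hsplit, add_comm]
  apply Nat.add_le_add
  · -- strict pairs
    rw [← Finset.card_powersetCard]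
    apply Finset.card_le_card_of_injOn (fun x => ({x.1, x.2} : Finset ℕ))
    · intro x hx
      simp only [coe_filter, Set.mem_ofPred_eq] at hx
      obtain ⟨h1, h2, h3, h4, _⟩ := hmem x hx.1
      simp only [mem_coe, mem_powersetCard]
      refine ⟨?_, Finset.card_pair hx.2⟩
      intro y hy
      simp only [mem_insert, mem_singleton] at hy
      simp only [hD, mem_filter, Multiset.mem_toFinset]
      rcases hy with rfl | rfl
      · exact ⟨h3, by omega⟩
      · exact ⟨h4, h1⟩
    · rintro ⟨t, s⟩ hx ⟨t', s'⟩ hy hxy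
      simp only [coe_filter, Set.mem_ofPred_eq] at hx hy
      obtain ⟨_, h2, _, _, _⟩ := hmem _ hx.1
      obtain ⟨_, h2', _, _, _⟩ := hmem _ hy.1
      simp only at h2 h2' hxy
      have n1 : s < t := lt_of_le_of_ne h2 (fun h => hx.2 h.symm)
      have n2 : s' < t' := lt_of_le_of_ne h2' (fun h => hy.2 h.symm)
      have a1 : t ∈ ({t', s'} : Finset ℕ) := by rw [← hxy]; simp
      have a2 : s ∈ ({t', s'} : Finset ℕ) := by rw [← hxy]; simp
      have a3 : t' ∈ ({t, s} : Finset ℕ) := by rw [hxy]; simp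
      simp only [mem_insert, mem_singleton] at a1 a2 a3
      have ht : t = t' := by omega
      have hs' : s = s' := by omega
      subst ht; subst hs'; rfl
  · apply Finset.card_le_card_of_injOn (fun x => x.1)
    · intro x hx
      simp only [coe_filter, Set.mem_ofPred_eq] at hx
      obtain ⟨h1, h2, h3, h4, h5⟩ := hmem x hx.1
      simp only [hR, mem_coe, mem_filter, Multiset.mem_toFinset]
      exact ⟨h3, by omega, h5 hx.2⟩
    · rintro ⟨t, s⟩ hx ⟨t', s'⟩ hy hxy
      simp only [coe_filter, Set.mem_ofPred_eq] at hx hy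
      have h1 := hx.2
      have h2 := hy.2
      simp only at h1 h2 hxy
      subst h1; subst h2; subst hxy; rfl

theorem coeff_PP_mul (K n : ℕ) :
    coeff n (PP (2 * K + 1) * ∏ m ∈ odds 1 (2 * K + 1), geo m) =
      ((∑ p ∈ resT (odds 1 (2 * K + 1)) n, ∑ t ∈ odds 3 (2 * K + 1), ∑ s ∈ odds 3 t,
        (if ({s, t} : Multiset ℕ) ≤ p.parts then 1 else 0) : ℕ) : ℤ) := by
  have hT : ∀ x ∈ odds 1 (2 * K + 1), 1 ≤ x := fun x hx => (mem_odds.mp hx).1
  rw [← gen_resT _ hT]
  unfold PP
  rw [Finset.sum_mul, map_sum, Finset.sum_comm]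
  push_cast
  apply Finset.sum_congr rfl
  intro t ht
  rw [Finset.sum_mul, map_sum, Finset.sum_comm]
  apply Finset.sum_congr rfl
  intro s hs'
  rw [mem_odds] at ht hs'
  have hm : ∀ x ∈ ({s, t} : Multiset ℕ), x ∈ odds 1 (2 * K + 1) := by
    intro x hx
    simp only [Multiset.insert_eq_cons, Multiset.mem_cons, Multiset.mem_singleton] at hx
    rw [mem_odds]
    rcases hx with rfl | rfl
    · exact ⟨by omega, by omega, hs'.2.2⟩
    · exact ⟨by omega, by omega, ht.2.2⟩
  have hc := card_contains (odds 1 (2 * K + 1)) n (s + t) {s, t} hT hm (by simp)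
  rw [Finset.card_filter] at hc
  rw [coeff_X_pow_mul']
  rw [show (∑ x ∈ resT (odds 1 (2 * K + 1)) n,
      (if ({s, t} : Multiset ℕ) ≤ x.parts then (1 : ℤ) else 0)) =
      ((∑ x ∈ resT (odds 1 (2 * K + 1)) n,
      (if ({s, t} : Multiset ℕ) ≤ x.parts then 1 else 0) : ℕ) : ℤ) by push_cast; rfl, hc]
  split_ifs with h
  · rw [coeff_mk]
  · simp

theorem h2_dist {n : ℕ} (p : n.Partition) (hp : p.parts.Nodup) : h2 p = hs p.parts.toFinset := by
  rw [h2_eq]
  have h2 : S2 p = ∅ := by
    unfold S2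
    rw [Finset.filter_eq_empty_iff]
    intro x _ hc
    have := Multiset.nodup_iff_count_le_one.mp hp x
    omega
  rw [h2, card_empty, add_zero]
  unfold hs S1
  congr 1
  apply Finset.filter_congr
  intro x _
  rw [Multiset.mem_toFinset]

theorem coeff_beta (L n : ℕ) :
    coeff n (beta (fun h => ((h.choose 2 : ℕ) : ℤ)) L) =
      ((∑ p ∈ distP L n, (h2 p).choose 2 : ℕ) : ℤ) := by
  classical
  unfold beta
  rw [map_sum]
  have e1 : ∀ S ∈ (Icc 1 L).powerset,
      coeff n ((((hs S).choose 2 : ℕ) : ℤ) • (X : ℤ⟦X⟧) ^ (∑ x ∈ S, x)) =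
      if n = ∑ x ∈ S, x then (((hs S).choose 2 : ℕ) : ℤ) else 0 := by
    intro S _
    rw [map_zsmul, coeff_X_pow]
    split_ifs <;> simp
  rw [Finset.sum_congr rfl e1, ← Finset.sum_filter]
  push_cast
  symm
  apply Finset.sum_bij (fun (p : n.Partition) _ => p.parts.toFinset)
  · intro p hp
    simp only [distP, mem_filter, mem_univ, true_and] at hp
    rw [mem_filter, mem_powerset]
    constructor
    · intro x hx
      rw [Multiset.mem_toFinset] at hx
      rw [mem_Icc]
      exact ⟨p.parts_pos hx, hp.2 x hx⟩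
    · conv_lhs => rw [← p.parts_sum]
      rw [Finset.sum, Multiset.toFinset_val, Multiset.dedup_eq_self.mpr hp.1, Multiset.map_id']
  · intro p hp q hq h
    simp only [distP, mem_filter, mem_univ, true_and] at hp hq
    ext1
    have := congrArg Finset.val h
    rwa [Multiset.toFinset_val, Multiset.toFinset_val, Multiset.dedup_eq_self.mpr hp.1,
      Multiset.dedup_eq_self.mpr hq.1] at this
  · intro S hS
    rw [mem_filter, mem_powerset] at hS
    refine ⟨⟨S.val, fun {x} hx => (mem_Icc.mp (hS.1 hx)).1, ?_⟩, ?_, ?_⟩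
    · rw [hS.2, Finset.sum, Multiset.map_id']
    · simp only [distP, mem_filter, mem_univ, true_and]
      exact ⟨S.nodup, fun x hx => (mem_Icc.mp (hS.1 hx)).2⟩
    · simp
  · intro p hp
    simp only [distP, mem_filter, mem_univ, true_and] at hp
    rw [h2_dist p hp.1]

/-- For every positive integer `L` and every `n`, `B_L(n) ≤ A_L(n)`. -/
theorem result : ∀ L : ℕ, 1 ≤ L → ∀ n : ℕ, B L n ≤ A L n := by
  intro L hL n
  obtain ⟨K, rfl⟩ : ∃ K, L = K + 1 := ⟨L - 1, by omega⟩
  have h := beta2_le K n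
  rw [map_sub, coeff_beta, coeff_PP_mul, sub_nonneg, Nat.cast_le] at h
  rw [A_eq, B_eq]
  refine h.trans ?_
  rw [oddP_eq]
  exact Finset.sum_le_sum fun p hp => cnt_le K n p hp

end Pool.Agent.Results.MP_d17fc5_co.HookTwoBias
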